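import Mathlib

namespace Pool.Agent.Results.MP_94066b_nt.Toms

lemma mem_iff {q m L A B : ℕ} (h : B * q = L + A * m) (hc : Nat.Coprime q m) (hq : 0 < q) (n : ℕ) :
    L * n ∈ AddSubmonoid.closure ({q, m} : Set ℕ) ↔ ∃ k, n * A ≤ k * q ∧ k * m ≤ n * B := by
  rw [AddSubmonoid.mem_closure_pair]
  simp only [smul_eq_mul]
  constructor
  · rintro ⟨u, v, e⟩
    have e1 : (n * B - u) * q = (n * A + v) * m := by
      rw [Nat.sub_mul, mul_assoc, h]
      exact Nat.sub_eq_of_eq_add (by rw [mul_add, mul_comm n L, ← e]; ring)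
    obtain ⟨k, hk⟩ : q ∣ n * A + v := hc.dvd_of_dvd_mul_right ⟨n * B - u, by rw [← e1, mul_comm]⟩
    refine ⟨k, by rw [mul_comm k, ← hk]; omega, ?_⟩
    have : n * B - u = k * m := Nat.eq_of_mul_eq_mul_right hq (by rw [e1, hk]; ring)
    omega
  · rintro ⟨k, h1, h2⟩
    obtain ⟨u, hu⟩ := Nat.exists_eq_add_of_le h1
    obtain ⟨v, hv⟩ := Nat.exists_eq_add_of_le h2
    refine ⟨v, u, ?_⟩
    zify at h hu hv ⊢
    linear_combination n * h - q * hv - m * hu

lemma piece {x y L : ℕ} (hx : 0 < x) (hL : L.Prime) (hb : 64 * x ^ 4 ≤ L) :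
    ∃ q m, (0 < q ∧ 0 < m ∧ Nat.Coprime q m ∧ Nat.Coprime L m ∧ Nat.Coprime L q) ∧
      L * x ∉ AddSubmonoid.closure ({q, m} : Set ℕ) ∧
      ∀ s, (x < s ∨ s < x ∧ ∃ k, s * y < k * x ∧ k * x < s * (y + 1)) →
        L * s ∈ AddSubmonoid.closure ({q, m} : Set ℕ) := by
  obtain ⟨z, rfl⟩ : ∃ z, x = z + 1 := ⟨x - 1, by omega⟩
  generalize hx' : z + 1 = x at *
  have hq : 0 < 4 * x ^ 2 := by positivity
  have hA : Nat.Coprime (4 * x * y + 1) (4 * x ^ 2) := by
    have : Nat.Coprime (4 * x * y + 1) (4 * x) := by simp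
    exact Nat.Coprime.coprime_dvd_right ⟨4, by ring⟩ (this.pow_right 2)
  obtain ⟨m, m1, m2, B, hB⟩ : ∃ m, L / (4 * z + 3) < m ∧ m ≤ L / (4 * z + 3) + 4 * x ^ 2 ∧
      4 * x ^ 2 ∣ L + (4 * x * y + 1) * m := by
    haveI : NeZero (4 * x ^ 2) := ⟨hq.ne'⟩
    set u := ZMod.unitOfCoprime _ hA with hu
    refine ⟨L / (4 * z + 3) + 1 + (-L * (u⁻¹ : (ZMod (4 * x ^ 2))ˣ) -
      (L / (4 * z + 3) + 1 : ℕ) : ZMod (4 * x ^ 2)).val, by omega, ?_, ?_⟩
    · have := ZMod.val_lt (-L * (u⁻¹ : (ZMod (4 * x ^ 2))ˣ) -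
        (L / (4 * z + 3) + 1 : ℕ) : ZMod (4 * x ^ 2))
      omega
    · rw [← ZMod.natCast_eq_zero_iff, Nat.cast_add, Nat.cast_mul, Nat.cast_add (_ + 1),
        ZMod.natCast_zmod_val, ← ZMod.coe_unitOfCoprime _ hA, ← hu]
      linear_combination (-L : ZMod (4 * x ^ 2)) * u.mul_inv
  have l1 : L < (4 * z + 3) * m := by
    rwa [Nat.div_lt_iff_lt_mul (by omega), mul_comm] at m1
  have l2 : (4 * z + 2) * m ≤ L := by
    have e1 := Nat.mul_div_le L (4 * z + 3)
    have e2 : (4 * z + 3) * ((4 * z + 2) * (4 * x ^ 2)) ≤ L := by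
      refine le_trans ?_ hb
      subst hx'
      nlinarith [sq_nonneg (z + 1 : ℤ), Nat.zero_le (z ^ 4), Nat.zero_le (z ^ 3), Nat.zero_le (z ^ 2)]
    have e3 : (4 * z + 2) * (4 * x ^ 2) ≤ L / (4 * z + 3) := by
      rwa [Nat.le_div_iff_mul_le (by omega), mul_comm]
    nlinarith
  have m0 : 0 < m := (Nat.zero_le _).trans_lt m1
  have c1 : Nat.Coprime L m := (Nat.coprime_of_lt_prime m0.ne' (by nlinarith) hL)
  have c2 : Nat.Coprime L (4 * x ^ 2) := Nat.coprime_of_lt_prime hq.ne' (by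
    have : x ^ 2 ≤ x ^ 4 := Nat.pow_le_pow_right hx (by norm_num)
    omega) hL
  have c3 : Nat.Coprime (4 * x ^ 2) m := by
    refine Nat.coprime_of_dvd fun p hp h1 h2 => hp.one_lt.ne' (Nat.eq_one_of_dvd_coprimes c1 ?_ h2)
    exact (Nat.dvd_add_left (h2.mul_left _)).1 (hB ▸ h1.mul_right B)
  have hB' : B * (4 * x ^ 2) = L + (4 * x * y + 1) * m := by rw [hB, mul_comm]
  have b1 : B * x < (y + 1) * m := by
    refine Nat.lt_of_mul_lt_mul_right (a := 4 * x) ?_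
    calc B * x * (4 * x) = L + (4 * x * y + 1) * m := by rw [← hB']; ring
      _ < (4 * z + 3) * m + (4 * x * y + 1) * m := by omega
      _ = _ := by subst hx'; ring
  refine ⟨4 * x ^ 2, m, ⟨hq, m0, c3, c1, c2⟩, ?_, ?_⟩
  · rw [mem_iff hB' c3 hq]
    rintro ⟨k, h1, h2⟩
    have k1 : y < k := by
      by_contra hk
      have : k * (4 * x ^ 2) ≤ y * (4 * x ^ 2) := Nat.mul_le_mul_right _ (by omega)
      nlinarith
    have : (y + 1) * m ≤ k * m := Nat.mul_le_mul_right _ k1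
    nlinarith
  · intro s hs
    rw [mem_iff hB' c3 hq]
    have b2 : (4 * x * y + 4 * z + 3) * m ≤ B * (4 * x ^ 2) := by rw [hB']; nlinarith
    suffices ∃ k, s * (4 * x * y + 1) ≤ k * (4 * x ^ 2) ∧
        k * (4 * x ^ 2) ≤ s * (4 * x * y + 4 * z + 3) by
      obtain ⟨k, h1, h2⟩ := this
      refine ⟨k, h1, Nat.le_of_mul_le_mul_right ?_ hq⟩
      calc k * m * (4 * x ^ 2) = k * (4 * x ^ 2) * m := by ring
        _ ≤ s * (4 * x * y + 4 * z + 3) * m := Nat.mul_le_mul_right _ h2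
        _ = s * ((4 * x * y + 4 * z + 3) * m) := by ring
        _ ≤ s * (B * (4 * x ^ 2)) := Nat.mul_le_mul_left _ b2
        _ = _ := by ring
    rcases hs with hs | ⟨hs, k, h1, h2⟩
    · refine ⟨s * (4 * x * y + 4 * z + 3) / (4 * x ^ 2), ?_, Nat.div_mul_le_self _ _⟩
      have e1 := Nat.lt_div_mul_add (a := s * (4 * x * y + 4 * z + 3)) hq
      have e2 : 4 * x ^ 2 ≤ s * (4 * z + 2) := by subst hx'; nlinarith
      nlinarith
    · refine ⟨k, ?_, ?_⟩
      · nlinarith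
      · subst hx'; nlinarith

theorem result (a b c : ℕ) (hb : b ≠ 0) :
    ∃ (L n : ℕ) (q m : Fin n → ℕ), 0 < L ∧ 0 < n ∧
      (∀ i, 0 < q i ∧ 0 < m i ∧ Nat.Coprime (q i) (m i) ∧ Nat.Coprime L (m i) ∧
        Nat.Coprime L (q i)) ∧
      {x : ℕ | a * x % b + c ≤ x} ∪ {0} =
        {x : ℕ | ∀ i, L * x ∈ AddSubmonoid.closure ({q i, m i} : Set ℕ)} := by
  obtain ⟨L, hL, hp⟩ := Nat.exists_infinite_primes (64 * (b + c) ^ 4)
  have hb' := Nat.pos_of_ne_zero hb
  have H : ∀ x : Fin (b + c), ∃ q m,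
      (0 < q ∧ 0 < m ∧ Nat.Coprime q m ∧ Nat.Coprime L m ∧ Nat.Coprime L q) ∧
      (0 < x.1 → x.1 < a * x % b + c → L * x ∉ AddSubmonoid.closure ({q, m} : Set ℕ)) ∧
      ∀ s, a * s % b + c ≤ s → L * s ∈ AddSubmonoid.closure ({q, m} : Set ℕ) := by
    rintro ⟨x, hx⟩
    by_cases h : 0 < x ∧ x < a * x % b + c
    · obtain ⟨q, m, h1, h2, h3⟩ := piece (y := a * x / b) h.1 hp
        ((Nat.mul_le_mul_left _ (Nat.pow_le_pow_left hx.le 4)).trans hL)
      refine ⟨q, m, h1, fun _ _ => h2, fun s hs => ?_⟩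
      rcases Nat.eq_zero_or_pos s with rfl | s0
      · exact zero_mem _
      rcases lt_trichotomy x s with e | rfl | e
      · exact h3 s (.inl e)
      · omega
      refine h3 s (.inr ⟨e, a * s / b, ?_, ?_⟩)
      all_goals
        refine Nat.lt_of_mul_lt_mul_left (a := b) ?_
        have e1 := Nat.div_add_mod (a * x) b
        have e2 := Nat.div_add_mod (a * s) b
        have e3 := Nat.mod_lt (a * x) hb'
        have e4 := h.2
        generalize a * x / b = y at *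
        generalize a * s / b = k at *
        generalize a * x % b = r at *
        generalize a * s % b = t at *
      · have f1 : s * x < s * (r + c) := Nat.mul_lt_mul_of_pos_left e4 s0
        have f2 : (t + c) * x ≤ s * x := Nat.mul_le_mul_right _ hs
        have f3 : s * c ≤ x * c := Nat.mul_le_mul_right _ e.le
        zify at *
        nlinarith
      · have f1 : s * r < s * b := Nat.mul_lt_mul_of_pos_left e3 s0
        zify at *
        nlinarith [mul_nonneg (Int.natCast_nonneg t) (Int.natCast_nonneg x)]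
    · refine ⟨1, 1, by simp, fun h1 h2 => absurd ⟨h1, h2⟩ h, fun s _ => ?_⟩
      rw [AddSubmonoid.mem_closure_pair]
      exact ⟨L * s, 0, by simp⟩
  choose q m h1 h2 h3 using H
  refine ⟨L, b + c, q, m, hp.pos, by omega, h1, Set.ext fun x => ⟨?_, fun hx => ?_⟩⟩
  · rintro (hx | rfl) i
    · exact h3 i x hx
    · exact zero_mem _
  · by_contra h
    simp only [Set.mem_union, Set.mem_ofPred_eq, Set.mem_singleton_iff, not_or, not_le] at h
    have := Nat.mod_lt (a * x) hb'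
    exact h2 ⟨x, by omega⟩ (Nat.pos_of_ne_zero h.2) h.1 (hx _)

end Pool.Agent.Results.MP_94066b_nt.Toms
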